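import Mathlib

set_option autoImplicit false

/-! # The two-value optimisation lemma

For a list of triples `(a, b, s)` with `s` decreasing the product
`(∑ a s) (∑ b / s)` is at most `(∑ a) (∑ b)` as soon as every cut of the list is good. -/

namespace Pool.Agent.Helper64.CX

/-- sum of the first weights -/
def sA (l : List (ℝ × ℝ × ℝ)) : ℝ := (l.map (fun p => p.1)).sum
/-- sum of the second weights -/
def sB (l : List (ℝ × ℝ × ℝ)) : ℝ := (l.map (fun p => p.2.1)).sum
/-- weighted sum of the values -/
def sX (l : List (ℝ × ℝ × ℝ)) : ℝ := (l.map (fun p => p.1 * p.2.2)).sum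
/-- weighted sum of the inverses of the values -/
noncomputable def sY (l : List (ℝ × ℝ × ℝ)) : ℝ := (l.map (fun p => p.2.1 / p.2.2)).sum

@[simp] lemma sA_nil : sA [] = 0 := rfl
@[simp] lemma sB_nil : sB [] = 0 := rfl
@[simp] lemma sX_nil : sX [] = 0 := rfl
@[simp] lemma sY_nil : sY [] = 0 := rfl
@[simp] lemma sA_cons (p : ℝ × ℝ × ℝ) (l : List (ℝ × ℝ × ℝ)) : sA (p :: l) = p.1 + sA l := by
  simp [sA]
@[simp] lemma sB_cons (p : ℝ × ℝ × ℝ) (l : List (ℝ × ℝ × ℝ)) : sB (p :: l) = p.2.1 + sB l := by
  simp [sB]
@[simp] lemma sX_cons (p : ℝ × ℝ × ℝ) (l : List (ℝ × ℝ × ℝ)) :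
    sX (p :: l) = p.1 * p.2.2 + sX l := by
  simp [sX]
@[simp] lemma sY_cons (p : ℝ × ℝ × ℝ) (l : List (ℝ × ℝ × ℝ)) :
    sY (p :: l) = p.2.1 / p.2.2 + sY l := by
  simp [sY]

/-- A function `α s + β / s + γ` with `α, β ≥ 0` on an interval is at most its value at one of
the end points. -/
lemma endpoint (α β γ m M s C : ℝ) (hβ : 0 ≤ β) (hm : 0 < m) (h1 : m ≤ s) (h2 : s ≤ M)
    (hC1 : α * m + β / m + γ ≤ C) (hC2 : α * M + β / M + γ ≤ C) :
    α * s + β / s + γ ≤ C := by
  have hs : 0 < s := lt_of_lt_of_le hm h1
  have hM : 0 < M := lt_of_lt_of_le hs h2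
  rcases eq_or_lt_of_le (h1.trans h2) with he | hlt
  · have : s = m := le_antisymm (h2.trans he.symm.le) h1
    rw [this]; exact hC1
  · -- convexity of 1/s
    have hd : 0 < M - m := sub_pos.2 hlt
    have key : 1 / s ≤ ((M - s) / m + (s - m) / M) / (M - m) := by
      rw [div_add_div _ _ hm.ne' hM.ne', div_div, div_le_div_iff₀ hs (by positivity)]
      have : ((M - s) * M + m * (s - m)) * s - 1 * (m * M * (M - m))
          = (M - m) * ((M - s) * (s - m)) := by ring
      nlinarith [mul_nonneg hd.le (mul_nonneg (sub_nonneg.2 h2) (sub_nonneg.2 h1))]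
    have e1 : α * s + β / s + γ
        ≤ α * s + β * (((M - s) / m + (s - m) / M) / (M - m)) + γ := by
      have := mul_le_mul_of_nonneg_left key hβ
      have e : β / s = β * (1 / s) := by ring
      rw [e]; linarith
    have e2 : α * s + β * (((M - s) / m + (s - m) / M) / (M - m)) + γ
        = ((M - s) * (α * m + β / m + γ) + (s - m) * (α * M + β / M + γ)) / (M - m) := by
      field_simp
      ring
    rw [e2] at e1
    refine e1.trans ?_
    rw [div_le_iff₀ hd]
    nlinarith [mul_le_mul_of_nonneg_left hC1 (sub_nonneg.2 h2),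
      mul_le_mul_of_nonneg_left hC2 (sub_nonneg.2 h1)]

/-- All cuts are good. -/
def Good (ρ : ℝ) (l : List (ℝ × ℝ × ℝ)) : Prop :=
  ∀ l₁ l₂, l = l₁ ++ l₂ → ρ * (sA l₁ * sB l₂) ≤ sA l₂ * sB l₁

/-- Nonnegative weights and positive values. -/
def Pos (l : List (ℝ × ℝ × ℝ)) : Prop := ∀ p ∈ l, 0 ≤ p.1 ∧ 0 ≤ p.2.1 ∧ 0 < p.2.2

lemma sA_append (l₁ l₂ : List (ℝ × ℝ × ℝ)) : sA (l₁ ++ l₂) = sA l₁ + sA l₂ := by simp [sA]
lemma sB_append (l₁ l₂ : List (ℝ × ℝ × ℝ)) : sB (l₁ ++ l₂) = sB l₁ + sB l₂ := by simp [sB]

lemma sA_nonneg {l : List (ℝ × ℝ × ℝ)} (h : Pos l) : 0 ≤ sA l :=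
  List.sum_nonneg (by
    intro x hx
    obtain ⟨p, hp, rfl⟩ := List.mem_map.1 hx
    exact (h p hp).1)
lemma sB_nonneg {l : List (ℝ × ℝ × ℝ)} (h : Pos l) : 0 ≤ sB l :=
  List.sum_nonneg (by
    intro x hx
    obtain ⟨p, hp, rfl⟩ := List.mem_map.1 hx
    exact (h p hp).2.1)
lemma sX_nonneg {l : List (ℝ × ℝ × ℝ)} (h : Pos l) : 0 ≤ sX l :=
  List.sum_nonneg (by
    intro x hx
    obtain ⟨p, hp, rfl⟩ := List.mem_map.1 hx
    exact mul_nonneg (h p hp).1 (h p hp).2.2.le)
lemma sY_nonneg {l : List (ℝ × ℝ × ℝ)} (h : Pos l) : 0 ≤ sY l :=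
  List.sum_nonneg (by
    intro x hx
    obtain ⟨p, hp, rfl⟩ := List.mem_map.1 hx
    exact div_nonneg (h p hp).2.1 (h p hp).2.2.le)

/-- The optimisation lemma. -/
theorem opt (ρ : ℝ) : ∀ (N : ℕ) (l : List (ℝ × ℝ × ℝ)), l.length = N → Pos l →
    l.Pairwise (fun p q => q.2.2 ≤ p.2.2 ∧ p.2.2 ≤ ρ * q.2.2) → Good ρ l →
    sX l * sY l ≤ sA l * sB l := by
  intro N
  induction N using Nat.strong_induction_on with
  | _ N ih =>
    intro l hN hpos hpw hgood
    match l, hN, hpos, hpw, hgood with
    | [], _, _, _, _ => simp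
    | [p], _, hpos, _, _ =>
      have h := hpos p (by simp)
      have hs := h.2.2
      simp only [sX_cons, sX_nil, sY_cons, sY_nil, sA_cons, sA_nil, sB_cons, sB_nil, add_zero]
      apply le_of_eq
      field_simp
    | [p, q], _, hpos, hpw, hgood =>
      have hp := hpos p (by simp)
      have hq := hpos q (by simp)
      have hpq := (List.pairwise_cons.1 hpw).1 q (by simp)
      have hg := hgood [p] [q] rfl
      simp only [sX_cons, sX_nil, sY_cons, sY_nil, sA_cons, sA_nil, sB_cons, sB_nil,
        add_zero] at hg ⊢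
      obtain ⟨a, b, s⟩ := p
      obtain ⟨a', b', s'⟩ := q
      simp only at hp hq hpq hg ⊢
      obtain ⟨ha, hb, hs⟩ := hp
      obtain ⟨ha', hb', hs'⟩ := hq
      have e : (a * s + a' * s') * (b / s + b' / s')
          = a * b + a' * b' + (a * b') * (s / s') + (a' * b) * (s' / s) := by
        field_simp
        ring
      rw [e]
      have h1 : s / s' ≤ ρ := by rw [div_le_iff₀ hs']; exact hpq.2
      have h2 : 1 ≤ s / s' := by rw [le_div_iff₀ hs']; linarith [hpq.1]
      have h3 : s' / s = 1 / (s / s') := by field_simp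
      rw [h3]
      set r := s / s' with hr
      have hr0 : 0 < r := by positivity
      have h4 : 1 / r = 1 - (r - 1) / r := by field_simp; ring
      rw [h4]
      have h5 : (a * b') * (r - 1) ≤ (a' * b) * ((r - 1) / r) := by
        have h6 : r * (a * b') ≤ a' * b :=
          (mul_le_mul_of_nonneg_right h1 (mul_nonneg ha hb')).trans hg
        have h7 : (a * b') * (r - 1) = (r * (a * b')) * ((r - 1) / r) := by
          field_simp
        rw [h7]
        exact mul_le_mul_of_nonneg_right h6 (div_nonneg (by linarith) hr0.le)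
      nlinarith [h5]
    | p :: q :: r :: l, hN, hpos, hpw, hgood =>
      have hp := hpos p (by simp)
      have hq := hpos q (by simp)
      have hr := hpos r (by simp)
      have hpos' : Pos l := fun x hx => hpos x (by simp [hx])
      have hw1 := List.pairwise_cons.1 hpw
      have hw2 := List.pairwise_cons.1 hw1.2
      have hw3 := List.pairwise_cons.1 hw2.2
      have hpq := hw1.1 q (by simp)
      have hpr := hw1.1 r (by simp)
      have hqr := hw2.1 r (by simp)
      obtain ⟨a, b, s⟩ := p
      obtain ⟨a', b', s'⟩ := q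
      obtain ⟨a'', b'', s''⟩ := r
      simp only at hp hq hr hpq hpr hqr
      obtain ⟨ha, hb, hs⟩ := hp
      obtain ⟨ha', hb', hs'⟩ := hq
      obtain ⟨ha'', hb'', hs''⟩ := hr
      -- merging to the left
      have hL : sX ((a + a', b + b', s) :: (a'', b'', s'') :: l)
          * sY ((a + a', b + b', s) :: (a'', b'', s'') :: l)
          ≤ sA ((a + a', b + b', s) :: (a'', b'', s'') :: l)
          * sB ((a + a', b + b', s) :: (a'', b'', s'') :: l) := by
        refine ih (N - 1) ?_ _ ?_ ?_ ?_ ?_
        · simp only [List.length_cons] at hN; omega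
        · simp only [List.length_cons] at hN ⊢; omega
        · intro x hx
          rcases List.mem_cons.1 hx with h | h
          · rw [h]; exact ⟨add_nonneg ha ha', add_nonneg hb hb', hs⟩
          · rcases List.mem_cons.1 h with h | h
            · rw [h]; exact ⟨ha'', hb'', hs''⟩
            · exact hpos' x h
        · refine List.pairwise_cons.2 ⟨?_, hw2.2⟩
          intro x hx
          exact hw1.1 x (by simp only [List.mem_cons] at hx ⊢; tauto)
        · intro l₁ l₂ he
          rcases l₁ with _ | ⟨x, l₁⟩
          · simp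
          · simp only [List.cons_append, List.cons.injEq] at he
            have := hgood ((a, b, s) :: (a', b', s') :: l₁) l₂ (by
              simp only [List.cons_append, List.cons.injEq, true_and]; exact he.2)
            rw [← he.1]
            simp only [sA_cons, sB_cons] at this ⊢
            linarith [this]
      -- merging to the right
      have hR : sX ((a, b, s) :: (a' + a'', b' + b'', s'') :: l)
          * sY ((a, b, s) :: (a' + a'', b' + b'', s'') :: l)
          ≤ sA ((a, b, s) :: (a' + a'', b' + b'', s'') :: l)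
          * sB ((a, b, s) :: (a' + a'', b' + b'', s'') :: l) := by
        refine ih (N - 1) ?_ _ ?_ ?_ ?_ ?_
        · simp only [List.length_cons] at hN; omega
        · simp only [List.length_cons] at hN ⊢; omega
        · intro x hx
          rcases List.mem_cons.1 hx with h | h
          · rw [h]; exact ⟨ha, hb, hs⟩
          · rcases List.mem_cons.1 h with h | h
            · rw [h]; exact ⟨add_nonneg ha' ha'', add_nonneg hb' hb'', hs''⟩
            · exact hpos' x h
        · refine List.pairwise_cons.2 ⟨?_, List.pairwise_cons.2 ⟨?_, hw3.2⟩⟩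
          · intro x hx
            rcases List.mem_cons.1 hx with h | h
            · rw [h]; exact hpr
            · exact hw1.1 x (by simp [h])
          · intro x hx
            exact hw3.1 x hx
        · intro l₁ l₂ he
          rcases l₁ with _ | ⟨x, l₁⟩
          · simp
          · simp only [List.cons_append, List.cons.injEq] at he
            rw [← he.1]
            rcases l₁ with _ | ⟨y, l₁⟩
            · simp only [List.nil_append] at he
              have := hgood [(a, b, s)] ((a', b', s') :: (a'', b'', s'') :: l) rfl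
              rw [← he.2]
              simp only [sA_cons, sB_cons, sA_nil, sB_nil] at this ⊢
              linarith [this]
            · simp only [List.cons_append, List.cons.injEq] at he
              have := hgood ((a, b, s) :: (a', b', s') :: (a'', b'', s'') :: l₁) l₂ (by
                simp only [List.cons_append, List.cons.injEq, true_and]; exact he.2.2)
              rw [← he.2.1]
              simp only [sA_cons, sB_cons] at this ⊢
              linarith [this]
      simp only [sX_cons, sY_cons, sA_cons, sB_cons] at hL hR ⊢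
      have hXn := sX_nonneg hpos'
      have hYn := sY_nonneg hpos'
      -- the product as a function of s'
      have e : ∀ u : ℝ, 0 < u → (a * s + (a' * u + (a'' * s'' + sX l)))
            * (b / s + (b' / u + (b'' / s'' + sY l)))
          = (a' * (b / s + b'' / s'' + sY l)) * u + (b' * (a * s + a'' * s'' + sX l)) / u
            + (a' * b' + (a * s + a'' * s'' + sX l) * (b / s + b'' / s'' + sY l)) := by
        intro u hu
        field_simp
        ring
      rw [e s' hs']
      refine endpoint _ _ _ s'' s s' _ ?_ hs'' hqr.1 hpq.1 ?_ ?_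
      · positivity
      · rw [← e s'' hs'']
        calc _ = (a * s + ((a' + a'') * s'' + sX l)) * (b / s + ((b' + b'') / s'' + sY l)) := by
              ring
          _ ≤ _ := hR
          _ = _ := by ring
      · rw [← e s hs]
        calc _ = ((a + a') * s + (a'' * s'' + sX l)) * ((b + b') / s + (b'' / s'' + sY l)) := by
              ring
          _ ≤ _ := hL
          _ = _ := by ring

end Pool.Agent.Helper64.CX
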