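import Mathlib
import Pool.Agent.Helper64.CX.Lst

set_option autoImplicit false

/-! # The analytic lemma of the peeling step -/

namespace Pool.Agent.Helper64.CX

open Finset

lemma sX_append (l₁ l₂ : List (ℝ × ℝ × ℝ)) : sX (l₁ ++ l₂) = sX l₁ + sX l₂ := by simp [sX]
lemma sY_append (l₁ l₂ : List (ℝ × ℝ × ℝ)) : sY (l₁ ++ l₂) = sY l₁ + sY l₂ := by simp [sY]

lemma sX_range (f : ℕ → ℝ × ℝ × ℝ) (N : ℕ) :
    sX ((List.range N).map f) = ∑ i ∈ range N, (f i).1 * (f i).2.2 := by
  induction N with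
  | zero => simp
  | succ N ih => rw [List.range_succ, List.map_append, sX_append, ih, sum_range_succ]; simp

lemma sY_range (f : ℕ → ℝ × ℝ × ℝ) (N : ℕ) :
    sY ((List.range N).map f) = ∑ i ∈ range N, (f i).2.1 / (f i).2.2 := by
  induction N with
  | zero => simp
  | succ N ih => rw [List.range_succ, List.map_append, sY_append, ih, sum_range_succ]; simp

lemma sA_range (f : ℕ → ℝ × ℝ × ℝ) (N : ℕ) :
    sA ((List.range N).map f) = ∑ i ∈ range N, (f i).1 := by
  induction N with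
  | zero => simp
  | succ N ih => rw [List.range_succ, List.map_append, sA_append, ih, sum_range_succ]; simp

lemma sB_range (f : ℕ → ℝ × ℝ × ℝ) (N : ℕ) :
    sB ((List.range N).map f) = ∑ i ∈ range N, (f i).2.1 := by
  induction N with
  | zero => simp
  | succ N ih => rw [List.range_succ, List.map_append, sB_append, ih, sum_range_succ]; simp

lemma geom_two (k : ℕ) : ∑ i ∈ range k, (2 : ℝ) ^ i = 2 ^ k - 1 := by
  induction k with
  | zero => simp
  | succ k ih => rw [sum_range_succ, ih]; ring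

/-- The cut inequality. -/
lemma cutineq (k : ℕ) (c d : ℝ) (hc : 0 ≤ c) (hd : 0 ≤ d) (h : c + d = 1) :
    (2 ^ k - 1) ^ 2 * (c ^ k * d ^ k) ≤ (1 - c ^ k) * (1 - d ^ k) := by
  set w := Real.sqrt (c * d) with hw
  have hw0 : 0 ≤ w := Real.sqrt_nonneg _
  have hw2 : w ^ 2 = c * d := Real.sq_sqrt (mul_nonneg hc hd)
  have hw1 : 2 * w ≤ 1 := by
    nlinarith [sq_nonneg (c - d), sq_nonneg (c + d)]
  have e1 : 1 - c ^ k = d * ∑ i ∈ range k, c ^ i := by
    have := mul_geom_sum c k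
    have hd' : d = 1 - c := by linarith
    rw [hd']; linarith
  have e2 : 1 - d ^ k = c * ∑ i ∈ range k, d ^ i := by
    have := mul_geom_sum d k
    have hd' : c = 1 - d := by linarith
    rw [hd']; linarith
  have hcs : (∑ i ∈ range k, w ^ i) ^ 2 ≤ (∑ i ∈ range k, c ^ i) * ∑ i ∈ range k, d ^ i := by
    have := sum_sq_le_sum_mul_sum_of_sq_le_mul (range k) (r := fun i => w ^ i)
      (f := fun i => c ^ i) (g := fun i => d ^ i) (fun i _ => pow_nonneg hc i)
      (fun i _ => pow_nonneg hd i) (fun i _ => le_of_eq (by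
        rw [← pow_mul, mul_comm, pow_mul, hw2, mul_pow]))
    exact this
  have e3 : (2 ^ k - 1 : ℝ) * w ^ k ≤ w * ∑ i ∈ range k, w ^ i := by
    rw [← geom_two, sum_mul, mul_sum, ← sum_range_reflect (fun i => w * w ^ i)]
    refine sum_le_sum fun i hi => ?_
    have hik : i < k := mem_range.1 hi
    have e4 : k - 1 - i + 1 + i = k := by omega
    have : (2 : ℝ) ^ i * w ^ k = (2 * w) ^ i * (w * w ^ (k - 1 - i)) := by
      conv_lhs => rw [← e4]
      rw [pow_add, pow_succ, mul_pow]; ring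
    rw [this]
    exact mul_le_of_le_one_left (mul_nonneg hw0 (pow_nonneg hw0 _))
      (pow_le_one₀ (by linarith) hw1)
  rw [e1, e2]
  calc (2 ^ k - 1 : ℝ) ^ 2 * (c ^ k * d ^ k) = ((2 ^ k - 1) * w ^ k) ^ 2 := by
        rw [mul_pow, ← pow_mul w, mul_comm k 2, pow_mul, hw2, mul_pow]
    _ ≤ (w * ∑ i ∈ range k, w ^ i) ^ 2 := by
        refine pow_le_pow_left₀ ?_ e3 2
        refine mul_nonneg ?_ (pow_nonneg hw0 _)
        have : (1 : ℝ) ≤ 2 ^ k := one_le_pow₀ (by norm_num)
        linarith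
    _ = (c * d) * (∑ i ∈ range k, w ^ i) ^ 2 := by rw [mul_pow, hw2]
    _ ≤ (c * d) * ((∑ i ∈ range k, c ^ i) * ∑ i ∈ range k, d ^ i) :=
        mul_le_mul_of_nonneg_left hcs (mul_nonneg hc hd)
    _ = _ := by ring

/-- telescoping -/
lemma tele (g : ℕ → ℝ) (N : ℕ) : ∑ i ∈ range N, (g (i + 1) - g i) = g N - g 0 :=
  sum_range_sub g N

/-- The discrete optimisation on the grid `i / N`. -/
theorem grid (k N : ℕ) (hk : 1 ≤ k) (hN : 1 ≤ N) (K : ℝ) (s : ℕ → ℝ) (hs : ∀ i, 0 < s i)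
    (hanti : ∀ i j, i ≤ j → s j ≤ s i) (hr : ∀ i j, s i ≤ (2 ^ k - 1) ^ 2 * s j) (hK : 0 ≤ K) :
    (∑ i ∈ range N, ((((i + 1 : ℕ) : ℝ) / N) ^ k - ((i : ℝ) / N) ^ k) * s i)
      * (∑ i ∈ range N, (((1 - (i : ℝ) / N)) ^ k - (1 - ((i + 1 : ℕ) : ℝ) / N) ^ k) * (K / s i))
      ≤ K := by
  have hN0 : (0 : ℝ) < N := by exact_mod_cast hN
  set f : ℕ → ℝ × ℝ × ℝ := fun i => (if i < N then
    ((((i + 1 : ℕ) : ℝ) / N) ^ k - ((i : ℝ) / N) ^ k) else 0, if i < N then
    (((1 - (i : ℝ) / N)) ^ k - (1 - ((i + 1 : ℕ) : ℝ) / N) ^ k) else 0, s i) with hf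
  set l := (List.range N).map f with hl
  have hA : ∀ j, j ≤ N → sA ((List.range j).map f) = ((j : ℝ) / N) ^ k := by
    intro j hj
    rw [sA_range]
    have : ∑ i ∈ range j, (f i).1 = ∑ i ∈ range j,
        ((fun m : ℕ => ((m : ℝ) / N) ^ k) (i + 1) - (fun m : ℕ => ((m : ℝ) / N) ^ k) i) := by
      refine sum_congr rfl fun i hi => ?_
      have : i < N := lt_of_lt_of_le (mem_range.1 hi) hj
      simp [hf, this]
    rw [this]
    refine (tele (fun m : ℕ => ((m : ℝ) / N) ^ k) j).trans ?_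
    simp only [Nat.cast_zero, zero_div, zero_pow (by omega : k ≠ 0), sub_zero]
  have hB : ∀ j, j ≤ N → sB ((List.range j).map f) = 1 - (1 - (j : ℝ) / N) ^ k := by
    intro j hj
    rw [sB_range]
    have : ∑ i ∈ range j, (f i).2.1 = ∑ i ∈ range j,
        ((fun m : ℕ => -(1 - (m : ℝ) / N) ^ k) (i + 1)
          - (fun m : ℕ => -(1 - (m : ℝ) / N) ^ k) i) := by
      refine sum_congr rfl fun i hi => ?_
      have : i < N := lt_of_lt_of_le (mem_range.1 hi) hj
      simp [hf, this]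
      ring
    rw [this]
    refine (tele (fun m : ℕ => -(1 - (m : ℝ) / N) ^ k) j).trans ?_
    simp
    ring
  have hAN : sA l = 1 := by rw [hl, hA N le_rfl, div_self hN0.ne', one_pow]
  have hBN : sB l = 1 := by
    rw [hl, hB N le_rfl, div_self hN0.ne', sub_self, zero_pow (by omega), sub_zero]
  have hpos : Pos l := by
    intro p hp
    obtain ⟨i, hi, rfl⟩ := List.mem_map.1 hp
    have hiN : i < N := List.mem_range.1 hi
    have h1 : (i : ℝ) / N ≤ ((i + 1 : ℕ) : ℝ) / N := by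
      gcongr; omega
    have h2 : ((i + 1 : ℕ) : ℝ) / N ≤ 1 := by
      rw [div_le_one hN0]; exact_mod_cast hiN
    refine ⟨?_, ?_, hs i⟩
    · simp only [hf, hiN, if_true]
      exact sub_nonneg.2 (pow_le_pow_left₀ (by positivity) h1 k)
    · simp only [hf, hiN, if_true]
      exact sub_nonneg.2 (pow_le_pow_left₀ (by linarith) (by linarith) k)
  have hgood : Good ((2 ^ k - 1) ^ 2) l := by
    intro l₁ l₂ he
    obtain ⟨r1, r2, h1, h2, h3⟩ := List.map_eq_append_iff.1 he
    have hlen : r1.length ≤ N := by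
      have := congrArg List.length h1
      simp at this
      omega
    have h4 : r1 = List.range r1.length := by
      have h5 := congrArg (List.take r1.length) h1
      rw [List.take_left', List.take_range, min_eq_left hlen] at h5
      · exact h5.symm
      · rfl
    have hA1 : sA l₁ = ((r1.length : ℝ) / N) ^ k := by rw [← h2, h4, hA _ (by simpa using hlen)]; simp
    have hB1 : sB l₁ = 1 - (1 - (r1.length : ℝ) / N) ^ k := by
      rw [← h2, h4, hB _ (by simpa using hlen)]; simp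
    have hA2 : sA l₂ = 1 - ((r1.length : ℝ) / N) ^ k := by
      have := sA_append l₁ l₂
      rw [← he, hAN, hA1] at this; linarith
    have hB2 : sB l₂ = (1 - (r1.length : ℝ) / N) ^ k := by
      have := sB_append l₁ l₂
      rw [← he, hBN, hB1] at this; linarith
    rw [hA1, hA2, hB1, hB2]
    have hc1 : (r1.length : ℝ) / N ≤ 1 := by
      rw [div_le_one hN0]; exact_mod_cast hlen
    exact cutineq k _ _ (by positivity) (by linarith) (by ring)
  have hpw : l.Pairwise (fun p q => q.2.2 ≤ p.2.2 ∧ p.2.2 ≤ (2 ^ k - 1) ^ 2 * q.2.2) := by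
    rw [hl, List.pairwise_map]
    refine List.Pairwise.imp ?_ (List.pairwise_lt_range (n := N))
    intro i j hij
    exact ⟨hanti i j hij.le, hr i j⟩
  have hmain := opt ((2 ^ k - 1) ^ 2) N l (by simp [hl]) hpos hpw hgood
  rw [hAN, hBN, mul_one, hl, sX_range, sY_range] at hmain
  have e1 : ∑ i ∈ range N, (f i).1 * (f i).2.2
      = ∑ i ∈ range N, ((((i + 1 : ℕ) : ℝ) / N) ^ k - ((i : ℝ) / N) ^ k) * s i := by
    refine sum_congr rfl fun i hi => ?_
    simp [hf, mem_range.1 hi]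
  have e2 : ∑ i ∈ range N, (((1 - (i : ℝ) / N)) ^ k - (1 - ((i + 1 : ℕ) : ℝ) / N) ^ k) * (K / s i)
      = K * ∑ i ∈ range N, (f i).2.1 / (f i).2.2 := by
    rw [mul_sum]
    refine sum_congr rfl fun i hi => ?_
    simp [hf, mem_range.1 hi]
    ring
  rw [e2, ← e1]
  calc _ = K * ((∑ i ∈ range N, (f i).1 * (f i).2.2) * ∑ i ∈ range N, (f i).2.1 / (f i).2.2) := by
        ring
    _ ≤ K * 1 := mul_le_mul_of_nonneg_left hmain hK
    _ = K := mul_one K

end Pool.Agent.Helper64.CX
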