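import Mathlib
import Pool.Agent.Helper64.CX.An

set_option autoImplicit false

/-! # The analytic lemma of the peeling step: from the grid to all thresholds -/

namespace Pool.Agent.Helper64.CX

open Finset

/-- `x ↦ x ^ k` is `k`-Lipschitz on `[0,1]`. -/
lemma one_sub_pow_sub_bound (x y : ℝ) (k : ℕ) (hx1 : x ≤ 1) (hy : 0 ≤ y)
    (hyx : y ≤ x) : x ^ k - y ^ k ≤ k * (x - y) := by
  induction k with
  | zero => simp
  | succ k ih =>
    have h1 : y ^ k ≤ 1 := pow_le_one₀ hy (hyx.trans hx1)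
    have h2 : 0 ≤ x ^ k - y ^ k := sub_nonneg.2 (pow_le_pow_left₀ hy hyx k)
    have e : x ^ (k + 1) - y ^ (k + 1) = x * (x ^ k - y ^ k) + y ^ k * (x - y) := by ring
    rw [e]
    push_cast
    have h3 : x * (x ^ k - y ^ k) ≤ x ^ k - y ^ k := mul_le_of_le_one_left h2 hx1
    have h4 : y ^ k * (x - y) ≤ x - y := mul_le_of_le_one_left (sub_nonneg.2 hyx) h1
    linarith

/-- lower grid sum for `x ^ k` (strict version) -/
lemma low_strict (k N : ℕ) (hk : 1 ≤ k) (hN : 1 ≤ N) (x : ℝ) (h0 : 0 ≤ x) (h1 : x ≤ 1) :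
    x ^ k ≤ ∑ i ∈ range N, ((((i + 1 : ℕ) : ℝ) / N) ^ k - ((i : ℝ) / N) ^ k)
      * (if ((i + 1 : ℕ) : ℝ) / N < x then 1 else 0) + (k : ℝ) / N := by
  have hN0 : (0 : ℝ) < N := by exact_mod_cast hN
  rcases eq_or_lt_of_le h0 with hx | hx
  · rw [← hx, zero_pow (by omega)]
    have : ∀ i ∈ range N, ((((i + 1 : ℕ) : ℝ) / N) ^ k - ((i : ℝ) / N) ^ k)
      * (if ((i + 1 : ℕ) : ℝ) / N < 0 then 1 else 0) = 0 := by
      intro i _
      rw [if_neg, mul_zero]
      push Not; positivity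
    rw [sum_congr rfl this, sum_const_zero, zero_add]
    positivity
  -- j = ceil (x N) - 1
  set j := ⌈x * N⌉₊ - 1 with hj
  have hc1 : 1 ≤ ⌈x * N⌉₊ := Nat.one_le_iff_ne_zero.2 (by
    rw [Ne, Nat.ceil_eq_zero]; push Not; positivity)
  have hj1 : ((j + 1 : ℕ) : ℝ) = (⌈x * N⌉₊ : ℝ) := by rw [hj, Nat.sub_add_cancel hc1]
  have hjlt : (j : ℝ) < x * N := by
    have := Nat.ceil_lt_add_one (a := x * N) (by positivity)
    push_cast at hj1
    linarith
  have hjge : x * N ≤ j + 1 := by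
    have := Nat.le_ceil (x * N)
    push_cast at hj1
    linarith
  have hjN : j ≤ N := by
    have : (j : ℝ) < N := lt_of_lt_of_le hjlt (by nlinarith)
    exact_mod_cast this.le
  have hsum : ((j : ℝ) / N) ^ k ≤ ∑ i ∈ range N, ((((i + 1 : ℕ) : ℝ) / N) ^ k - ((i : ℝ) / N) ^ k)
      * (if ((i + 1 : ℕ) : ℝ) / N < x then 1 else 0) := by
    have h2 := tele (fun m : ℕ => ((m : ℝ) / N) ^ k) j
    simp only [Nat.cast_zero, zero_div, zero_pow (by omega : k ≠ 0), sub_zero] at h2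
    rw [← h2]
    refine (sum_le_sum (g := fun i => ((((i + 1 : ℕ) : ℝ) / N) ^ k - ((i : ℝ) / N) ^ k)
      * (if ((i + 1 : ℕ) : ℝ) / N < x then 1 else 0)) ?_).trans ?_
    · intro i hi
      have hij : i + 1 ≤ j := mem_range.1 hi
      rw [if_pos, mul_one]
      rw [div_lt_iff₀ hN0]
      exact lt_of_le_of_lt (by exact_mod_cast hij) hjlt
    · refine sum_le_sum_of_subset_of_nonneg (range_subset_range.2 hjN) ?_
      intro i _ _
      refine mul_nonneg (sub_nonneg.2 (pow_le_pow_left₀ (by positivity) ?_ k)) (by split_ifs <;> norm_num)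
      gcongr; omega
  have hxj : x - j / N ≤ 1 / N := by
    rw [sub_le_iff_le_add, ← add_div, le_div_iff₀ hN0]; linarith
  have hjx : (j : ℝ) / N ≤ x := by rw [div_le_iff₀ hN0]; exact hjlt.le
  have hdiff : x ^ k - ((j : ℝ) / N) ^ k ≤ k * (x - j / N) := by
    have hj0 : (0 : ℝ) ≤ j / N := by positivity
    have := one_sub_pow_sub_bound x ((j : ℝ) / N) k
    exact this h1 hj0 hjx
  have h3 : (k : ℝ) * (x - j / N) ≤ k / N := by
    have := mul_le_mul_of_nonneg_left hxj (Nat.cast_nonneg (α := ℝ) k)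
    calc _ ≤ _ := this
      _ = k / N := by ring
  linarith

/-- lower grid sum for `x ^ k` (reflected version) -/
lemma low_weak (k N : ℕ) (hk : 1 ≤ k) (hN : 1 ≤ N) (x : ℝ) (h0 : 0 ≤ x) (h1 : x ≤ 1) :
    x ^ k ≤ ∑ i ∈ range N, ((1 - (i : ℝ) / N) ^ k - (1 - ((i + 1 : ℕ) : ℝ) / N) ^ k)
      * (if 1 - (i : ℝ) / N ≤ x then 1 else 0) + (k : ℝ) / N := by
  have hN0 : (0 : ℝ) < N := by exact_mod_cast hN
  refine (low_strict k N hk hN x h0 h1).trans ?_
  rw [← sum_range_reflect (fun i => ((1 - (i : ℝ) / N) ^ k - (1 - ((i + 1 : ℕ) : ℝ) / N) ^ k)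
      * (if 1 - (i : ℝ) / N ≤ x then 1 else 0))]
  refine add_le_add (sum_le_sum fun i hi => ?_) le_rfl
  have hiN : i < N := mem_range.1 hi
  have e : N - 1 - i + (i + 1) = N := by omega
  have e1 : ((N - 1 - i : ℕ) : ℝ) = N - (i + 1) := by
    have : ((N - 1 - i : ℕ) : ℝ) + (i + 1) = N := by exact_mod_cast e
    linarith
  have e2 : (1 : ℝ) - ((N - 1 - i : ℕ) : ℝ) / N = ((i + 1 : ℕ) : ℝ) / N := by
    rw [e1]; push_cast; field_simp; ring
  have e3 : (1 : ℝ) - ((N - 1 - i + 1 : ℕ) : ℝ) / N = (i : ℝ) / N := by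
    push_cast
    rw [e1]; field_simp; ring
  rw [e2, e3]
  have h2 : (0 : ℝ) ≤ (((i + 1 : ℕ) : ℝ) / N) ^ k - ((i : ℝ) / N) ^ k := by
    refine sub_nonneg.2 (pow_le_pow_left₀ (by positivity) ?_ k)
    gcongr; omega
  refine mul_le_mul_of_nonneg_left ?_ h2
  split_ifs with h3 h4
  · exact le_rfl
  · exact absurd h3.le h4
  · norm_num
  · exact le_rfl

/-- **The analytic lemma.** -/
theorem analytic {Ω : Type*} [Fintype Ω] (k : ℕ) (hk : 1 ≤ k) (α γ : Ω → ℝ)
    (hα0 : ∀ z, 0 ≤ α z) (hα1 : ∀ z, α z ≤ 1) (hγ0 : ∀ z, 0 ≤ γ z) (hγ1 : ∀ z, γ z ≤ 1)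
    (K : ℝ) (hK : 0 < K)
    (hlev : ∀ u : ℝ, 0 < u → u ≤ 1 →
      ((#{z | u < α z} : ℕ) : ℝ) * ((#{z | 1 - u ≤ γ z} : ℕ) : ℝ) ≤ K)
    (htop : ((#{z | 0 < α z} : ℕ) : ℝ) * ((#{z | 0 < γ z} : ℕ) : ℝ) ≤ (2 ^ k - 1) ^ 2 * K) :
    (∑ z, α z ^ k) * (∑ z, γ z ^ k) ≤ K := by
  classical
  set P0 : ℝ := ((#{z | 0 < α z} : ℕ) : ℝ) with hP0
  set Q0 : ℝ := ((#{z | 0 < γ z} : ℕ) : ℝ) with hQ0
  have hP0n : 0 ≤ P0 := Nat.cast_nonneg _
  have hQ0n : 0 ≤ Q0 := Nat.cast_nonneg _
  set P : ℝ → ℝ := fun u => ((#{z | u < α z} : ℕ) : ℝ) with hP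
  set Q : ℝ → ℝ := fun u => ((#{z | 1 - u ≤ γ z} : ℕ) : ℝ) with hQ
  have hPn : ∀ u, 0 ≤ P u := fun u => Nat.cast_nonneg _
  have hQn : ∀ u, 0 ≤ Q u := fun u => Nat.cast_nonneg _
  have hPanti : ∀ u v, u ≤ v → P v ≤ P u := by
    intro u v huv
    simp only [hP]
    exact_mod_cast card_le_card (fun z hz => by
      simp only [mem_filter, mem_univ, true_and] at hz ⊢
      exact lt_of_le_of_lt huv hz)
  have hQmono : ∀ u v, u ≤ v → Q u ≤ Q v := by
    intro u v huv
    simp only [hQ]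
    exact_mod_cast card_le_card (fun z hz => by
      simp only [mem_filter, mem_univ, true_and] at hz ⊢
      linarith)
  have hPP0 : ∀ u, 0 ≤ u → P u ≤ P0 := fun u hu => hPanti 0 u hu
  have hQQ0 : ∀ u, u < 1 → Q u ≤ Q0 := by
    intro u hu
    simp only [hQ, hQ0]
    exact_mod_cast card_le_card (fun z hz => by
      simp only [mem_filter, mem_univ, true_and] at hz ⊢
      linarith)
  -- sums are bounded by the supports
  have hXP0 : ∑ z, α z ^ k ≤ P0 := by
    rw [hP0, card_filter]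
    push_cast
    refine sum_le_sum fun z _ => ?_
    split_ifs with h
    · exact pow_le_one₀ (hα0 z) (hα1 z)
    · have : α z = 0 := le_antisymm (not_lt.1 h) (hα0 z)
      rw [this, zero_pow (by omega)]
  have hYQ0 : ∑ z, γ z ^ k ≤ Q0 := by
    rw [hQ0, card_filter]
    push_cast
    refine sum_le_sum fun z _ => ?_
    split_ifs with h
    · exact pow_le_one₀ (hγ0 z) (hγ1 z)
    · have : γ z = 0 := le_antisymm (not_lt.1 h) (hγ0 z)
      rw [this, zero_pow (by omega)]
  have hX0 : 0 ≤ ∑ z, α z ^ k := sum_nonneg fun z _ => pow_nonneg (hα0 z) k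
  have hY0 : 0 ≤ ∑ z, γ z ^ k := sum_nonneg fun z _ => pow_nonneg (hγ0 z) k
  rcases le_or_gt (P0 * Q0) K with hle | hgt
  · exact (mul_le_mul hXP0 hYQ0 hY0 hP0n).trans hle
  have hQ0pos : 0 < Q0 := by
    rcases eq_or_lt_of_le hQ0n with h | h
    · rw [← h, mul_zero] at hgt; linarith
    · exact h
  have hP0pos : 0 < P0 := by
    rcases eq_or_lt_of_le hP0n with h | h
    · rw [← h, zero_mul] at hgt; linarith
    · exact h
  set C : ℝ := (Fintype.card Ω : ℝ) with hC
  have hC0 : 0 ≤ C := Nat.cast_nonneg _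
  -- the bound for each N
  have hmain : ∀ N : ℕ, 1 ≤ N → (∑ z, α z ^ k) * (∑ z, γ z ^ k)
      ≤ K + (C * k * (P0 + Q0 + C * k)) / N := by
    intro N hN
    have hN0 : (0 : ℝ) < N := by exact_mod_cast hN
    set a : ℕ → ℝ := fun i => (((i + 1 : ℕ) : ℝ) / N) ^ k - ((i : ℝ) / N) ^ k with ha
    set b : ℕ → ℝ := fun i => (1 - (i : ℝ) / N) ^ k - (1 - ((i + 1 : ℕ) : ℝ) / N) ^ k with hb
    have ha0 : ∀ i, 0 ≤ a i := by
      intro i
      refine sub_nonneg.2 (pow_le_pow_left₀ (by positivity) ?_ k)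
      gcongr; omega
    have hb0 : ∀ i ∈ range N, 0 ≤ b i := by
      intro i hi
      have h2 : ((i + 1 : ℕ) : ℝ) / N ≤ 1 := by
        rw [div_le_one hN0]; exact_mod_cast mem_range.1 hi
      have h3 : (i : ℝ) / N ≤ ((i + 1 : ℕ) : ℝ) / N := by
        gcongr; omega
      exact sub_nonneg.2 (pow_le_pow_left₀ (by linarith) (by linarith) k)
    set XL : ℝ := ∑ i ∈ range N, a i * P (((i + 1 : ℕ) : ℝ) / N) with hXL
    set YL : ℝ := ∑ i ∈ range N, b i * Q ((i : ℝ) / N) with hYL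
    have hX : ∑ z, α z ^ k ≤ XL + C * k / N := by
      calc ∑ z, α z ^ k ≤ ∑ z, (∑ i ∈ range N, a i
              * (if ((i + 1 : ℕ) : ℝ) / N < α z then 1 else 0) + (k : ℝ) / N) :=
            sum_le_sum fun z _ => low_strict k N hk hN (α z) (hα0 z) (hα1 z)
        _ = XL + C * k / N := by
            rw [sum_add_distrib, sum_comm, sum_const, card_univ, nsmul_eq_mul, hXL]
            congr 1
            · refine sum_congr rfl fun i _ => ?_
              rw [← mul_sum, hP]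
              simp only [sum_boole]
            · rw [hC]; ring
    have hY : ∑ z, γ z ^ k ≤ YL + C * k / N := by
      calc ∑ z, γ z ^ k ≤ ∑ z, (∑ i ∈ range N, b i
              * (if 1 - (i : ℝ) / N ≤ γ z then 1 else 0) + (k : ℝ) / N) :=
            sum_le_sum fun z _ => low_weak k N hk hN (γ z) (hγ0 z) (hγ1 z)
        _ = YL + C * k / N := by
            rw [sum_add_distrib, sum_comm, sum_const, card_univ, nsmul_eq_mul, hYL]
            congr 1
            · refine sum_congr rfl fun i _ => ?_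
              rw [← mul_sum, hQ]
              simp only [sum_boole]
            · rw [hC]; ring
    -- the values s
    set s : ℕ → ℝ := fun i => max (P (((i + 1 : ℕ) : ℝ) / N)) (K / Q0) with hs
    have hKQ : 0 < K / Q0 := by positivity
    have hspos : ∀ i, 0 < s i := fun i => lt_of_lt_of_le hKQ (le_max_right _ _)
    have hKP : K / Q0 ≤ P0 := by rw [div_le_iff₀ hQ0pos]; exact hgt.le
    have hsle : ∀ i, s i ≤ P0 := fun i => max_le (hPP0 _ (by positivity)) hKP
    have hanti : ∀ i j, i ≤ j → s j ≤ s i := by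
      intro i j hij
      refine max_le_max (hPanti _ _ ?_) le_rfl
      gcongr
    have hr : ∀ i j, s i ≤ (2 ^ k - 1) ^ 2 * s j := by
      intro i j
      have h1 : P0 ≤ (2 ^ k - 1) ^ 2 * (K / Q0) := by
        rw [← mul_div_assoc, le_div_iff₀ hQ0pos]; exact htop
      refine (hsle i).trans (h1.trans ?_)
      exact mul_le_mul_of_nonneg_left (le_max_right _ _) (sq_nonneg _)
    have hg := grid k N hk hN K s hspos hanti hr hK.le
    have hXLs : XL ≤ ∑ i ∈ range N, a i * s i :=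
      sum_le_sum fun i _ => mul_le_mul_of_nonneg_left (le_max_left _ _) (ha0 i)
    have hYLs : YL ≤ ∑ i ∈ range N, b i * (K / s i) := by
      refine sum_le_sum fun i hi => mul_le_mul_of_nonneg_left ?_ (hb0 i hi)
      have hiN : i < N := mem_range.1 hi
      rw [le_div_iff₀ (hspos i), hs]
      simp only
      have hu1 : ((i + 1 : ℕ) : ℝ) / N ≤ 1 := by
        rw [div_le_one hN0]; exact_mod_cast hiN
      have hu2 : (i : ℝ) / N < 1 := by
        rw [div_lt_one hN0]; exact_mod_cast hiN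
      rw [mul_max_of_nonneg _ _ (hQn _)]
      refine max_le ?_ ?_
      · have h1 := hlev (((i + 1 : ℕ) : ℝ) / N) (by positivity) hu1
        have h2 : Q ((i : ℝ) / N) ≤ Q (((i + 1 : ℕ) : ℝ) / N) := by
          apply hQmono
          gcongr; omega
        calc _ ≤ Q (((i + 1 : ℕ) : ℝ) / N) * P (((i + 1 : ℕ) : ℝ) / N) :=
              mul_le_mul_of_nonneg_right h2 (hPn _)
          _ = P (((i + 1 : ℕ) : ℝ) / N) * Q (((i + 1 : ℕ) : ℝ) / N) := mul_comm _ _
          _ ≤ K := h1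
      · calc _ ≤ Q0 * (K / Q0) := mul_le_mul_of_nonneg_right (hQQ0 _ hu2) hKQ.le
          _ = K := by field_simp
    have hXL0 : 0 ≤ XL := sum_nonneg fun i _ => mul_nonneg (ha0 i) (hPn _)
    have hYL0 : 0 ≤ YL := sum_nonneg fun i hi => mul_nonneg (hb0 i hi) (hQn _)
    have hXLYL : XL * YL ≤ K := (mul_le_mul hXLs hYLs hYL0 (hXL0.trans hXLs)).trans hg
    have hXLP : XL ≤ P0 := by
      calc XL ≤ ∑ i ∈ range N, a i * P0 :=
            sum_le_sum fun i _ => mul_le_mul_of_nonneg_left (hPP0 _ (by positivity)) (ha0 i)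
        _ = (∑ i ∈ range N, a i) * P0 := by rw [sum_mul]
        _ = P0 := by
            have := tele (fun m : ℕ => ((m : ℝ) / N) ^ k) N
            simp only [Nat.cast_zero, zero_div, zero_pow (by omega : k ≠ 0), sub_zero,
              div_self hN0.ne', one_pow] at this
            rw [ha, this, one_mul]
    have hYLQ : YL ≤ Q0 := by
      calc YL ≤ ∑ i ∈ range N, b i * Q0 := by
            refine sum_le_sum fun i hi => mul_le_mul_of_nonneg_left (hQQ0 _ ?_) (hb0 i hi)
            rw [div_lt_one hN0]; exact_mod_cast mem_range.1 hi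
        _ = (∑ i ∈ range N, b i) * Q0 := by rw [sum_mul]
        _ = Q0 := by
            have h1 := tele (fun m : ℕ => -(1 - (m : ℝ) / N) ^ k) N
            have h2 : ∑ i ∈ range N, b i = ∑ i ∈ range N,
                (-(1 - ((i + 1 : ℕ) : ℝ) / N) ^ k - -(1 - (i : ℝ) / N) ^ k) :=
              sum_congr rfl fun i _ => by rw [hb]; ring
            rw [h2, h1, div_self hN0.ne', sub_self, zero_pow (by omega : k ≠ 0), Nat.cast_zero,
              zero_div, sub_zero, one_pow]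
            ring
    have hCk : 0 ≤ C * k / N := by positivity
    calc (∑ z, α z ^ k) * (∑ z, γ z ^ k) ≤ (XL + C * k / N) * (YL + C * k / N) :=
          mul_le_mul hX hY hY0 (hX0.trans hX)
      _ = XL * YL + (C * k / N) * (XL + YL + C * k / N) := by ring
      _ ≤ K + (C * k / N) * (P0 + Q0 + C * k) := by
          have h1 : C * k / N ≤ C * k := by
            rw [div_le_iff₀ hN0]
            have h2 : (1 : ℝ) ≤ N := by exact_mod_cast hN
            have h3 : 0 ≤ C * k := by positivity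
            nlinarith
          have h4 := mul_le_mul_of_nonneg_left
            (show XL + YL + C * k / N ≤ P0 + Q0 + C * k by linarith) hCk
          linarith
      _ = _ := by ring
  refine le_of_forall_pos_le_add fun ε hε => ?_
  set D : ℝ := C * k * (P0 + Q0 + C * k) with hD
  obtain ⟨N, hN⟩ := exists_nat_gt (D / ε)
  have hD0 : 0 ≤ D := by positivity
  have hN1 : 1 ≤ N := by
    have : (0 : ℝ) < N := lt_of_le_of_lt (by positivity) hN
    exact_mod_cast this
  have hN0 : (0 : ℝ) < N := by exact_mod_cast hN1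
  refine (hmain N hN1).trans ?_
  have : D / N ≤ ε := by
    rw [div_le_iff₀ hN0]
    rw [div_lt_iff₀ hε] at hN
    linarith
  linarith

end Pool.Agent.Helper64.CX
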