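import Mathlib

set_option autoImplicit false

/-! # Configurations (labelled graphs in recursive form) and colourings of their difference -/

namespace Pool.Agent.Helper64.CX

open Finset

/-- A graph on `n` labelled vertices, in recursive form. -/
def Cfg : ℕ → Type
  | 0 => Unit
  | n + 1 => Cfg n × (Fin n → Bool)

/-- finiteness -/
noncomputable instance instFin : (n : ℕ) → Fintype (Cfg n)
  | 0 => inferInstanceAs (Fintype Unit)
  | n + 1 => @instFintypeProd _ _ (instFin n) inferInstance

/-- decidable equality -/
noncomputable instance instDec (n : ℕ) : DecidableEq (Cfg n) := Classical.decEq _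

lemma card_cfg (n : ℕ) : Fintype.card (Cfg n) = 2 ^ (n.choose 2) := by
  induction n with
  | zero => rfl
  | succ n ih =>
    have h : Fintype.card (Cfg (n + 1)) = Fintype.card (Cfg n × (Fin n → Bool)) := rfl
    rw [h, Fintype.card_prod, ih, Fintype.card_fun, Fintype.card_bool, Fintype.card_fin,
      ← pow_add]
    congr 1
    rw [Nat.choose_succ_succ' n 1, Nat.choose_one_right]
    ring

/-- `c` is a proper colouring of the difference graph of `A` and `B`. -/
def Pr {k : ℕ} : (n : ℕ) → Cfg n → Cfg n → (Fin n → Fin k) → Prop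
  | 0, _, _, _ => True
  | n + 1, A, B, c => Pr n A.1 B.1 (fun i => c i.castSucc) ∧
      ∀ i, A.2 i ≠ B.2 i → c i.castSucc ≠ c (Fin.last n)

/-- The difference graph of `A` and `B` is `k`-colourable. -/
def Col (k n : ℕ) (A B : Cfg n) : Prop := ∃ c : Fin n → Fin k, Pr n A B c

/-- recursive form of an adjacency function -/
def enc : (n : ℕ) → (Fin n → Fin n → Bool) → Cfg n
  | 0, _ => ()
  | n + 1, a => (enc n (fun i j => a i.castSucc j.castSucc), fun i => a i.castSucc (Fin.last n))

lemma Pr_enc {k : ℕ} : ∀ (n : ℕ) (a b : Fin n → Fin n → Bool) (c : Fin n → Fin k),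
    Pr n (enc n a) (enc n b) c ↔ ∀ i j, i < j → a i j ≠ b i j → c i ≠ c j := by
  intro n
  induction n with
  | zero => intro a b c; simp [Pr]
  | succ n ih =>
    intro a b c
    have h : Pr (n + 1) (enc (n + 1) a) (enc (n + 1) b) c ↔
        Pr n (enc n (fun i j => a i.castSucc j.castSucc)) (enc n (fun i j => b i.castSucc j.castSucc))
          (fun i => c i.castSucc) ∧
        ∀ i : Fin n, a i.castSucc (Fin.last n) ≠ b i.castSucc (Fin.last n) →
          c i.castSucc ≠ c (Fin.last n) := Iff.rfl
    rw [h, ih]
    constructor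
    · rintro ⟨h1, h2⟩ i j
      refine Fin.lastCases ?_ (fun j => ?_) j
      · refine Fin.lastCases ?_ (fun i => ?_) i
        · intro hlt; exact absurd hlt (lt_irrefl _)
        · intro _ hne; exact h2 i hne
      · refine Fin.lastCases ?_ (fun i => ?_) i
        · intro hlt
          exact absurd (lt_trans hlt (Fin.castSucc_lt_last j)) (lt_irrefl _)
        · intro hlt hne
          exact h1 i j (Fin.castSucc_lt_castSucc_iff.1 hlt) hne
    · intro h1
      refine ⟨fun i j hij hne => h1 _ _ (Fin.castSucc_lt_castSucc_iff.2 hij) hne, fun i hne =>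
        h1 _ _ (Fin.castSucc_lt_last i) hne⟩

lemma enc_eq (n : ℕ) (a b : Fin n → Fin n → Bool) (h : enc n a = enc n b) :
    ∀ i j, i < j → a i j = b i j := by
  have h1 : Pr n (enc n a) (enc n a) (fun _ => (0 : Fin 1)) := by
    rw [Pr_enc]; intro i j _ hne; exact absurd rfl hne
  have h2 : Pr n (enc n a) (enc n b) (fun _ => (0 : Fin 1)) := by rw [← h]; exact h1
  rw [Pr_enc] at h2
  intro i j hij
  by_contra hne
  exact h2 i j hij hne rfl

end Pool.Agent.Helper64.CX
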