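import Mathlib
import Pool.Agent.Helper64.CX.Cfg

set_option autoImplicit false

/-! # The fibre inequality -/

namespace Pool.Agent.Helper64.CX

open Finset

/-- A set of functions is at most the product of its projections on the colour classes. -/
lemma card_le_prod {n k : ℕ} (c : Fin n → Fin k) (X : Finset (Fin n → Bool)) :
    X.card ≤ ∏ j : Fin k, (X.image (fun (x : Fin n → Bool) (i : {i // c i = j}) => x i.1)).card := by
  classical
  rw [← Fintype.card_piFinset]
  refine card_le_card_of_injOn (fun x j (i : {i // c i = j}) => x i.1) ?_ ?_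
  · intro x hx
    simp only [Fintype.coe_piFinset, Set.mem_pi, Set.mem_univ, forall_true_left]
    intro j
    exact mem_coe.2 (mem_image_of_mem _ hx)
  · intro x _ y _ hxy
    funext i
    have := congrFun (congrFun hxy (c i)) ⟨i, rfl⟩
    exact this

lemma prod_two {n k : ℕ} (c : Fin n → Fin k) :
    ∏ j : Fin k, (2 : ℝ) ^ (Fintype.card {i // c i = j}) = 2 ^ n := by
  classical
  rw [prod_pow_eq_pow_sum]
  congr 1
  have h := Finset.card_eq_sum_card_fiberwise (f := c) (s := (univ : Finset (Fin n)))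
    (t := (univ : Finset (Fin k))) (fun _ _ => mem_coe.2 (mem_univ _))
  rw [card_univ, Fintype.card_fin] at h
  refine Eq.trans (sum_congr rfl fun j _ => ?_) h.symm
  rw [Fintype.card_subtype]

/-- Two families of functions which differ on every colour class. -/
theorem fibre {n k : ℕ} (hk : 1 ≤ k) (c : Fin n → Fin k) (X Y : Finset (Fin n → Bool))
    (h : ∀ x ∈ X, ∀ y ∈ Y, ∀ j, ∃ i, c i = j ∧ x i ≠ y i) :
    ((X.card : ℝ) / 2 ^ n) ^ ((1 : ℝ) / k) + ((Y.card : ℝ) / 2 ^ n) ^ ((1 : ℝ) / k) ≤ 1 := by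
  classical
  have hk0 : (0 : ℝ) < k := by exact_mod_cast hk
  set pr : (j : Fin k) → (Fin n → Bool) → ({i // c i = j} → Bool) := fun j x i => x i.1 with hpr
  set p : Fin k → ℝ := fun j => ((X.image (pr j)).card : ℝ) / 2 ^ (Fintype.card {i // c i = j})
    with hp
  set q : Fin k → ℝ := fun j => ((Y.image (pr j)).card : ℝ) / 2 ^ (Fintype.card {i // c i = j})
    with hq
  have hp0 : ∀ j, 0 ≤ p j := fun j => by positivity
  have hq0 : ∀ j, 0 ≤ q j := fun j => by positivity
  have hpq : ∀ j, p j + q j ≤ 1 := by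
    intro j
    rw [hp, hq]
    simp only
    rw [← add_div, div_le_one (by positivity)]
    have hd : Disjoint (X.image (pr j)) (Y.image (pr j)) := by
      rw [Finset.disjoint_left]
      intro w hw1 hw2
      obtain ⟨x, hx, hxw⟩ := mem_image.1 hw1
      obtain ⟨y, hy, hyw⟩ := mem_image.1 hw2
      obtain ⟨i, hi, hne⟩ := h x hx y hy j
      have : pr j x ⟨i, hi⟩ = pr j y ⟨i, hi⟩ := by rw [hxw, hyw]
      exact hne this
    have h1 := card_le_univ (X.image (pr j) ∪ Y.image (pr j))
    rw [card_union_of_disjoint hd, Fintype.card_fun, Fintype.card_bool] at h1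
    exact_mod_cast h1
  have key : ∀ (Z : Finset (Fin n → Bool)) (r : Fin k → ℝ), (∀ j, 0 ≤ r j) →
      (∀ j, r j = ((Z.image (pr j)).card : ℝ) / 2 ^ (Fintype.card {i // c i = j})) →
      ((Z.card : ℝ) / 2 ^ n) ^ ((1 : ℝ) / k) ≤ ∑ j, (1 : ℝ) / k * r j := by
    intro Z r hr0 hr
    have h1 : (Z.card : ℝ) / 2 ^ n ≤ ∏ j, r j := by
      have h2 := card_le_prod c Z
      have h3 : ∏ j, r j = (∏ j : Fin k, ((Z.image (pr j)).card : ℝ)) / 2 ^ n := by
        rw [← prod_two c, ← prod_div_distrib]
        exact prod_congr rfl fun j _ => hr j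
      rw [h3]
      gcongr
      exact_mod_cast h2
    calc ((Z.card : ℝ) / 2 ^ n) ^ ((1 : ℝ) / k) ≤ (∏ j, r j) ^ ((1 : ℝ) / k) :=
          Real.rpow_le_rpow (by positivity) h1 (by positivity)
      _ = ∏ j, (r j) ^ ((1 : ℝ) / k) := by
          rw [← Real.finsetProd_rpow _ _ (fun j _ => hr0 j)]
      _ ≤ ∑ j, (1 : ℝ) / k * r j := by
          refine Real.geom_mean_le_arith_mean_weighted univ (fun _ => (1 : ℝ) / k) r
            (fun _ _ => by positivity) ?_ (fun j _ => hr0 j)
          rw [sum_const, card_univ, Fintype.card_fin, nsmul_eq_mul]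
          field_simp
  have hX := key X p hp0 (fun j => rfl)
  have hY := key Y q hq0 (fun j => rfl)
  calc _ ≤ ∑ j, (1 : ℝ) / k * p j + ∑ j, (1 : ℝ) / k * q j := add_le_add hX hY
    _ = ∑ j : Fin k, (1 : ℝ) / k * (p j + q j) := by
        rw [← sum_add_distrib]
        exact sum_congr rfl fun j _ => by ring
    _ ≤ ∑ j : Fin k, (1 : ℝ) / k * 1 :=
        sum_le_sum fun j _ => mul_le_mul_of_nonneg_left (hpq j) (by positivity)
    _ = 1 := by
        rw [sum_const, card_univ, Fintype.card_fin, nsmul_eq_mul]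
        field_simp

end Pool.Agent.Helper64.CX
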