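import Mathlib
import Pool.Agent.Helper64.CX.An2
import Pool.Agent.Helper64.CX.Fib

set_option autoImplicit false

/-! # Peeling one vertex -/

namespace Pool.Agent.Helper64.CX

open Finset

/-- No difference graph of `A ∈ F` and `B ∈ G` is `k`-colourable. -/
def Cross (k n : ℕ) (F G : Finset (Cfg n)) : Prop := ∀ A ∈ F, ∀ B ∈ G, ¬ Col k n A B

/-- The product of the densities of a cross pair is at most `K`. -/
def Bound (k n : ℕ) (K : ℝ) : Prop := ∀ F G : Finset (Cfg n), Cross k n F G →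
  (F.card : ℝ) * G.card ≤ K * ((2 : ℝ) ^ (n.choose 2)) ^ 2

/-- fibre over `z` -/
noncomputable def fib {n : ℕ} (F : Finset (Cfg (n + 1))) (z : Cfg n) : Finset (Fin n → Bool) :=
  univ.filter (fun x => ((z, x) : Cfg (n + 1)) ∈ F)

lemma mem_fib {n : ℕ} (F : Finset (Cfg (n + 1))) (z : Cfg n) (x : Fin n → Bool) :
    x ∈ fib F z ↔ ((z, x) : Cfg (n + 1)) ∈ F := by simp [fib]

lemma card_eq_sum {n : ℕ} (F : Finset (Cfg (n + 1))) : F.card = ∑ z : Cfg n, (fib F z).card := by
  classical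
  have h1 : F.card = ∑ z : Cfg n, (F.filter (fun A => A.1 = z)).card := by
    rw [← card_eq_sum_card_fiberwise]
    intro A _; exact mem_coe.2 (mem_univ _)
  rw [h1]
  refine sum_congr rfl fun z _ => ?_
  refine card_bij' (fun A _ => A.2) (fun x _ => ((z, x) : Cfg (n + 1))) ?_ ?_ ?_ ?_
  · intro A hA
    obtain ⟨h2, h3⟩ := mem_filter.1 hA
    rw [mem_fib]
    rw [← h3]; exact h2
  · intro x hx
    exact mem_filter.2 ⟨(mem_fib _ _ _).1 hx, rfl⟩
  · intro A hA
    obtain ⟨h2, h3⟩ := mem_filter.1 hA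
    exact Prod.ext h3.symm rfl
  · intro x _; rfl

/-- density root of the fibre -/
noncomputable def rt (k : ℕ) {n : ℕ} (F : Finset (Cfg (n + 1))) (z : Cfg n) : ℝ :=
  (((fib F z).card : ℝ) / 2 ^ n) ^ ((1 : ℝ) / k)

lemma rt_nonneg (k : ℕ) {n : ℕ} (F : Finset (Cfg (n + 1))) (z : Cfg n) : 0 ≤ rt k F z :=
  Real.rpow_nonneg (by positivity) _

lemma fib_le (n : ℕ) (F : Finset (Cfg (n + 1))) (z : Cfg n) :
    ((fib F z).card : ℝ) / 2 ^ n ≤ 1 := by
  rw [div_le_one (by positivity)]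
  have := card_le_univ (fib F z)
  rw [Fintype.card_fun, Fintype.card_bool, Fintype.card_fin] at this
  exact_mod_cast this

lemma rt_le_one (k : ℕ) {n : ℕ} (F : Finset (Cfg (n + 1))) (z : Cfg n) : rt k F z ≤ 1 :=
  Real.rpow_le_one (by positivity) (fib_le n F z) (by positivity)

lemma rt_pow (k : ℕ) (hk : 1 ≤ k) {n : ℕ} (F : Finset (Cfg (n + 1))) (z : Cfg n) :
    rt k F z ^ k = ((fib F z).card : ℝ) / 2 ^ n := by
  unfold rt
  rw [← Real.rpow_natCast, ← Real.rpow_mul (by positivity), one_div,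
    inv_mul_cancel₀ (by positivity), Real.rpow_one]

lemma rt_pos (k : ℕ) (hk : 1 ≤ k) {n : ℕ} (F : Finset (Cfg (n + 1))) (z : Cfg n)
    (h : 0 < rt k F z) : (fib F z).Nonempty := by
  by_contra hne
  rw [not_nonempty_iff_eq_empty] at hne
  unfold rt at h
  rw [hne, card_empty, Nat.cast_zero, zero_div, Real.zero_rpow (by positivity)] at h
  exact lt_irrefl _ h

/-- level sets at a threshold form a cross pair -/
lemma level (k : ℕ) (hk : 1 ≤ k) {n : ℕ} (F G : Finset (Cfg (n + 1))) (h : Cross k (n + 1) F G)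
    (z z' : Cfg n) (hc : Col k n z z') : rt k F z + rt k G z' ≤ 1 := by
  obtain ⟨c, hc⟩ := hc
  refine fibre hk c (fib F z) (fib G z') ?_
  intro x hx y hy j
  by_contra hno
  push Not at hno
  refine h (z, x) ((mem_fib _ _ _).1 hx) (z', y) ((mem_fib _ _ _).1 hy)
    ⟨Fin.snoc (α := fun _ => Fin k) c j, ?_⟩
  have e1 : ∀ i : Fin n, (Fin.snoc (α := fun _ => Fin k) c j : Fin (n + 1) → Fin k) i.castSucc
      = c i := fun i => by simp
  have e2 : (Fin.snoc (α := fun _ => Fin k) c j : Fin (n + 1) → Fin k) (Fin.last n) = j := by simp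
  refine ⟨?_, ?_⟩
  · have : (fun i : Fin n => (Fin.snoc (α := fun _ => Fin k) c j : Fin (n + 1) → Fin k) i.castSucc)
        = c := funext e1
    rw [this]; exact hc
  · intro i hne hcc
    rw [e1, e2] at hcc
    exact hne (hno i hcc)

/-- the projections form a cross pair for one colour less -/
lemma top (k : ℕ) (hk : 1 ≤ k) {n : ℕ} (F G : Finset (Cfg (n + 1))) (h : Cross (k + 1) (n + 1) F G)
    (z z' : Cfg n) (hz : 0 < rt (k + 1) F z) (hz' : 0 < rt (k + 1) G z') : ¬ Col k n z z' := by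
  rintro ⟨c, hc⟩
  obtain ⟨x, hx⟩ := rt_pos (k + 1) (by omega) F z hz
  obtain ⟨y, hy⟩ := rt_pos (k + 1) (by omega) G z' hz'
  refine h (z, x) ((mem_fib _ _ _).1 hx) (z', y) ((mem_fib _ _ _).1 hy)
    ⟨Fin.snoc (α := fun _ => Fin (k + 1)) (fun i => (c i).castSucc) (Fin.last k), ?_⟩
  have hemb : ∀ (m : ℕ) (A B : Cfg m) (c : Fin m → Fin k), Pr m A B c →
      Pr m A B (fun i => (c i).castSucc) := by
    intro m
    induction m with
    | zero => intro _ _ _ _; trivial
    | succ m ih =>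
      intro A B c h
      refine ⟨ih A.1 B.1 (fun i => c i.castSucc) h.1, ?_⟩
      intro i hne hcc
      exact h.2 i hne (Fin.castSucc_injective _ hcc)
  have e1 : ∀ i : Fin n, (Fin.snoc (α := fun _ => Fin (k + 1)) (fun i => (c i).castSucc)
      (Fin.last k) : Fin (n + 1) → Fin (k + 1)) i.castSucc = (c i).castSucc := fun i => by simp
  have e2 : (Fin.snoc (α := fun _ => Fin (k + 1)) (fun i => (c i).castSucc) (Fin.last k) :
      Fin (n + 1) → Fin (k + 1)) (Fin.last n) = Fin.last k := by simp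
  refine ⟨?_, ?_⟩
  · have : (fun i : Fin n => (Fin.snoc (α := fun _ => Fin (k + 1)) (fun i => (c i).castSucc)
        (Fin.last k) : Fin (n + 1) → Fin (k + 1)) i.castSucc) = fun i => (c i).castSucc :=
      funext e1
    rw [this]
    exact hemb n _ _ c hc
  · intro i _ hcc
    rw [e1, e2] at hcc
    exact absurd hcc (Fin.castSucc_lt_last (c i)).ne

/-- **The peeling step.** -/
theorem peel (k : ℕ) (hk : 1 ≤ k) (n : ℕ) (K : ℝ) (hK : 0 < K)
    (h1 : Bound (k + 1) n K) (h2 : Bound k n ((2 ^ (k + 1) - 1) ^ 2 * K)) :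
    Bound (k + 1) (n + 1) K := by
  classical
  intro F G h
  set N : ℝ := (2 : ℝ) ^ (n.choose 2) with hN
  have hN0 : 0 < N := by positivity
  have hmain := analytic (k + 1) (by omega) (rt (k + 1) F) (rt (k + 1) G) (rt_nonneg _ F)
    (rt_le_one _ F) (rt_nonneg _ G) (rt_le_one _ G) (K * N ^ 2) (by positivity) ?_ ?_
  · have e1 : ∀ H : Finset (Cfg (n + 1)), (H.card : ℝ) = 2 ^ n * ∑ z, rt (k + 1) H z ^ (k + 1) := by
      intro H
      rw [card_eq_sum H, mul_sum]
      push_cast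
      refine sum_congr rfl fun z _ => ?_
      rw [rt_pow (k + 1) (by omega)]
      field_simp
    have e2 : ((2 : ℝ) ^ ((n + 1).choose 2)) ^ 2 = (2 ^ n) ^ 2 * N ^ 2 := by
      rw [Nat.choose_succ_succ' n 1, Nat.choose_one_right, pow_add, mul_pow]
    rw [e1 F, e1 G, e2]
    calc _ = ((2 : ℝ) ^ n) ^ 2 * ((∑ z, rt (k + 1) F z ^ (k + 1))
            * ∑ z, rt (k + 1) G z ^ (k + 1)) := by ring
      _ ≤ ((2 : ℝ) ^ n) ^ 2 * (K * N ^ 2) := mul_le_mul_of_nonneg_left hmain (by positivity)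
      _ = _ := by ring
  · intro u _ _
    refine h1 _ _ ?_
    intro z hz z' hz' hc
    simp only [mem_filter, mem_univ, true_and] at hz hz'
    have := level (k + 1) (by omega) F G h z z' hc
    linarith
  · have := h2 (univ.filter (fun z => 0 < rt (k + 1) F z))
      (univ.filter (fun z => 0 < rt (k + 1) G z)) (by
        intro z hz z' hz'
        simp only [mem_filter, mem_univ, true_and] at hz hz'
        exact top k hk F G h z z' hz hz')
    rw [← mul_assoc]
    exact this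

/-- the constants -/
noncomputable def kap : ℕ → ℝ
  | 0 => 1
  | 1 => 1 / 4
  | k + 2 => kap (k + 1) / (2 ^ (k + 2) - 1) ^ 2

lemma kap_pos : ∀ k, 0 < kap k
  | 0 => by simp [kap]
  | 1 => by simp [kap]
  | k + 2 => by
    have h1 : (1 : ℝ) < 2 ^ (k + 2) := one_lt_pow₀ (by norm_num) (by omega)
    have h2 := kap_pos (k + 1)
    unfold kap
    have : (0 : ℝ) < (2 ^ (k + 2) - 1) ^ 2 := by
      have : (0 : ℝ) < 2 ^ (k + 2) - 1 := by linarith
      positivity
    positivity

lemma Pr_refl {k : ℕ} : ∀ (n : ℕ) (A : Cfg n) (c : Fin n → Fin k), Pr n A A c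
  | 0, _, _ => trivial
  | n + 1, A, _ => ⟨Pr_refl n A.1 _, fun _ h => absurd rfl h⟩

/-- one colour -/
lemma bound_one (n : ℕ) : Bound 1 n (1 / 4) := by
  classical
  intro F G h
  have hd : Disjoint F G := by
    rw [Finset.disjoint_left]
    intro A hA hB
    exact h A hA A hB ⟨fun _ => 0, Pr_refl n A _⟩
  have h1 := card_le_univ (F ∪ G)
  rw [card_union_of_disjoint hd, card_cfg] at h1
  have h2 : (F.card : ℝ) + G.card ≤ 2 ^ (n.choose 2) := by exact_mod_cast h1
  have h3 : (0 : ℝ) ≤ F.card := Nat.cast_nonneg _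
  have h4 : (0 : ℝ) ≤ G.card := Nat.cast_nonneg _
  nlinarith [sq_nonneg ((F.card : ℝ) - G.card)]

lemma bound_zero (k : ℕ) (K : ℝ) (hK : 0 ≤ K) : Bound k 0 K := by
  intro F G h
  rcases F.eq_empty_or_nonempty with he | ⟨A, hA⟩
  · rw [he]; simp only [card_empty, Nat.cast_zero, zero_mul]; positivity
  rcases G.eq_empty_or_nonempty with he | ⟨B, hB⟩
  · rw [he]; simp only [card_empty, Nat.cast_zero, mul_zero]; positivity
  exact absurd ⟨fun i => i.elim0, trivial⟩ (h A hA B hB)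

/-- **The bound for all cross pairs.** -/
theorem bound_all : ∀ (k : ℕ), ∀ n, Bound (k + 1) n (kap (k + 1)) := by
  intro k
  induction k with
  | zero => intro n; exact bound_one n
  | succ k ihk =>
    intro n
    induction n with
    | zero => exact bound_zero _ _ (kap_pos _).le
    | succ n ihn =>
      refine peel (k + 1) (by omega) n _ (kap_pos _) ihn ?_
      have e : (2 ^ (k + 1 + 1) - 1 : ℝ) ^ 2 * kap (k + 1 + 1) = kap (k + 1) := by
        have h1 : (1 : ℝ) < 2 ^ (k + 2) := one_lt_pow₀ (by norm_num) (by omega)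
        have h2 : (0 : ℝ) < 2 ^ (k + 2) - 1 := by linarith
        show (2 ^ (k + 2) - 1 : ℝ) ^ 2 * (kap (k + 1) / (2 ^ (k + 2) - 1) ^ 2) = kap (k + 1)
        field_simp
      rw [e]
      exact ihk n

end Pool.Agent.Helper64.CX
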